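import Pool.Agent.H.MP_6575fe_co.C

open Finset

namespace Pool.Agent.Results.MP_6575fe_co.Exact

/-- The number of `k`-subsets `B` whose stabilizer in the group of maps `x ↦ a x + b`
(written as pairs `(a, b)`, `a` a unit) is exactly `S`. -/
noncomputable def N {F : Type} [Field F] (S : Set (Fˣ × F)) (k : ℕ) : ℕ :=
  Set.ncard {B : Set F | B.ncard = k ∧ {g : Fˣ × F | (fun x => g.1 * x + g.2) '' B = B} = S}

open Pool.Agent.H.MP_6575fe_co in
theorem result (F : Type) [Field F] [Fintype F] (p : ℕ) [CharP F p]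
    (d : ℕ) (hd : d ∣ Fintype.card F - 1) (H : AddSubgroup F)
    (hH : ∀ z : F, z ^ d = 1 → (fun x => z * x) '' (H : Set F) = H)
    (k : ℕ) (h3 : 3 ≤ k) (hk : 2 * k ≤ Fintype.card F)
    (hc : k ≡ 0 [MOD d * Nat.card H] ∨ k ≡ Nat.card H [MOD d * Nat.card H]) :
    N {g : Fˣ × F | (g.1 : F) ^ d = 1 ∧ g.2 ∈ H} k = 0 ↔
      (k = Nat.card H ∧ d + 1 ≠ Nat.card {x : F // ∀ h ∈ H, x * h ∈ H}) ∨
      (d = 1 ∧ k = 2 * Nat.card H) ∨
      (k = (d + 1) * Nat.card H ∧ ∃ e, d + 1 = p ^ e) ∨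
      (d = 1 ∧ k = 3 * Nat.card H ∧ Fintype.card F = 7 * Nat.card H) := by
  classical
  have q1 := Fintype.one_lt_card (α := F)
  have dF : (d : F) ≠ 0 := fun e => by
    obtain ⟨c, hc⟩ := hd
    have := congrArg (Nat.cast (R := F)) hc
    simp [Nat.cast_sub q1.le, e] at this
  have d0 : 0 < d := Nat.pos_of_ne_zero (by rintro rfl; simp at dF)
  have hO : ∀ x : F, x ≠ 0 → #(O d x) = d := fun x hx => by
    obtain ⟨g, hg⟩ := IsCyclic.exists_ofOrder_eq_natCard (α := Fˣ)
    obtain ⟨c, hc⟩ := hd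
    have p : IsPrimitiveRoot ((g : F) ^ c) d := (IsPrimitiveRoot.coe_units_iff.2
      (IsPrimitiveRoot.orderOf g)).pow (orderOf_pos g) (by
        rw [hg, Nat.card_eq_fintype_card, Fintype.card_units, hc, mul_comm])
    refine .trans ?_ p.card_nthRootsFinset
    refine card_bij' (fun z _ => z / x) (fun z _ => z * x) ?_ ?_ (by simp [hx]) (by simp [hx]) <;>
      simp +contextual [O, Polynomial.mem_nthRootsFinset d0, div_pow, mul_pow, hx]
  let K : Subfield F :=
    { carrier := {a | ∀ h ∈ H, a * h ∈ H}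
      mul_mem' := fun ha hb h hh => mul_assoc _ _ h ▸ ha _ (hb h hh)
      one_mem' := by simp
      add_mem' := fun ha hb h hh => add_mul _ _ h ▸ H.add_mem (ha h hh) (hb h hh)
      zero_mem' := by simp
      neg_mem' := fun ha h hh => neg_mul _ h ▸ H.neg_mem (ha h hh)
      inv_mem' := fun a ha h hh => by
        rcases eq_or_ne a 0 with rfl | a0
        · simp
        obtain ⟨y, hy, rfl⟩ := mem_image.1 ((sb (B := univ.filter (· ∈ H)) (b := 0) a0
          (by simpa using ha)).ge (mem_filter.2 ⟨mem_univ h, hh⟩))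
        simpa [a0] using hy }
  let H' : Submodule K F := { H with smul_mem' := fun c x hx => c.2 x hx }
  obtain ⟨C, hC⟩ := H'.exists_isCompl
  let f := C.projection H' hC.symm
  have ker : ∀ x, f x = 0 ↔ x ∈ H := fun x => Submodule.projection_apply_eq_zero_iff hC.symm
  have sm : ∀ a ∈ K, ∀ x, f (a * x) = a * f x := fun a ha x => f.map_smul ⟨a, ha⟩ x
  have mK : ∀ z : F, z ^ d = 1 → z ∈ K := fun z hz h hh => (hH z hz).subset ⟨h, hh, rfl⟩
  set M := univ.image f
  have cd : ∀ B ⊆ M, #{x | f x ∈ B} = #B * Nat.card H := fun B hB => by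
    rw [card_eq_sum_card_fiberwise (f := f) (t := B) fun x hx => by simpa using hx,
      sum_congr rfl (g := fun _ => Nat.card H), sum_const, smul_eq_mul]
    intro y hy
    obtain ⟨x, -, rfl⟩ := mem_image.1 (hB hy)
    rw [Nat.card_eq_fintype_card, Fintype.card_subtype]
    refine card_bij' (fun z _ => z - x) (fun z _ => z + x) ?_ ?_ (by simp) (by simp) <;>
      simp +contextual [← ker, hy]
  have cM := cd M le_rfl
  rw [filter_true_of_mem fun x hx => mem_image_of_mem f hx, card_univ] at cM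
  have hp := Nat.card_pos (α := H)
  obtain ⟨j, t, i, hi, rfl, ht⟩ : ∃ j t i, i ≤ 1 ∧ k = j * Nat.card H ∧ j = t * d + i := by
    rcases hc with h | h
    · obtain ⟨t, rfl⟩ := Nat.modEq_zero_iff_dvd.1 h
      exact ⟨_, t, 0, by simp, by ring, rfl⟩
    · have l : Nat.card H ≤ k := Nat.le_of_dvd (by omega)
        ((h.dvd_iff (dvd_mul_left _ d)).2 dvd_rfl)
      obtain ⟨t, ht⟩ := (Nat.modEq_iff_dvd' l).1 h.symm
      exact ⟨_, t, 1, le_rfl, by rw [← Nat.sub_add_cancel l, ht]; ring, rfl⟩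
  have mM : ∀ x, f x ∈ M := fun x => mem_image_of_mem f (mem_univ x)
  refine .trans ?_ ((cls p dF hO K mK (M := M) (map_zero f ▸ mM 0) (fun u hu v hv => by
      obtain ⟨x, -, rfl⟩ := mem_image.1 hu
      obtain ⟨y, -, rfl⟩ := mem_image.1 hv
      exact map_add f x y ▸ mM _) (fun a ha v hv => by
      obtain ⟨x, -, rfl⟩ := mem_image.1 hv
      exact sm a ha x ▸ mM _) hi ht
    (Nat.le_of_mul_le_mul_right (by rwa [← cM, mul_assoc]) hp) (by rintro rfl; omega)).trans (by
      simp only [cM, Nat.mul_left_inj hp.ne', Nat.mul_eq_right hp.ne']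
      rfl))
  rw [N, Set.ncard_eq_zero (Set.toFinite _), ← Set.not_nonempty_iff_eq_empty, not_iff_not]
  constructor
  · rintro ⟨B, h1, h2⟩
    lift B to Finset F using B.toFinite
    have h4 : ∀ a b, a ≠ 0 → ((∀ x ∈ B, a * x + b ∈ B) ↔ a ^ d = 1 ∧ b ∈ H) := fun a b a0 => by
      have := Set.ext_iff.1 h2 (Units.mk0 a a0, b)
      simp only [Set.mem_ofPred_eq, Units.val_mk0] at this
      rw [← this, ← coe_image, coe_inj]
      exact ⟨sb a0, fun g x hx => g.le (mem_image_of_mem _ hx)⟩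
    have h5 : ∀ x, f x ∈ B.image f → x ∈ B := fun x hx => by
      obtain ⟨y, hy, e⟩ := mem_image.1 hx
      simpa using (h4 1 (x - y) one_ne_zero).2 ⟨one_pow d, (ker _).1 (by simp [e])⟩ y hy
    have s : B.image f ⊆ M := image_subset_image (subset_univ B)
    refine ⟨B.image f, s, fun y hy z e => ?_, Nat.eq_of_mul_eq_mul_right hp ?_,
      fun a ha b hb a0 g => ?_⟩
    · obtain ⟨x, hx, rfl⟩ := mem_image.1 hy
      rcases eq_or_ne (f x) 0 with c | c
      · rwa [show z = f x by simpa [c, d0.ne'] using e]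
      have e' : (z / f x) ^ d = 1 := by rw [div_pow, e, div_self (pow_ne_zero _ c)]
      refine mem_image.2 ⟨_, (h4 _ 0 (fun h => by simp [h, d0.ne'] at e')).2 ⟨e', H.zero_mem⟩ x hx,
        by rw [add_zero, sm _ (mK _ e'), div_mul_cancel₀ _ c]⟩
    · rw [← cd _ s, ← h1, Set.ncard_coe_finset]
      congr 1
      ext x
      simpa only [mem_filter, mem_univ, true_and] using ⟨h5 x, mem_image_of_mem f⟩
    · obtain ⟨b, -, rfl⟩ := mem_image.1 hb
      have := (h4 a b a0).1 fun x hx => h5 _ (by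
        rw [map_add, sm a ha]
        exact g _ (mem_image_of_mem f hx))
      exact ⟨(ker b).2 this.2, this.1⟩
  rintro ⟨B, s, h1, h2, h4⟩
  refine ⟨(univ.filter (f · ∈ B) : Finset F), by rw [Set.ncard_coe_finset, cd B s, h2],
    Set.ext fun ⟨a, b⟩ => ?_⟩
  simp only [Set.mem_ofPred_eq]
  rw [← coe_image, coe_inj]
  refine ⟨fun g => ?_, fun g => sb a.ne_zero fun x hx => ?_⟩
  · have g1 : ∀ x, f x ∈ B → f (a * x + b) ∈ B := fun x hx =>
      (mem_filter.1 (g.le (mem_image_of_mem _ (mem_filter.2 ⟨mem_univ x, hx⟩)))).2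
    have aK : (a : F) ∈ K := fun h hh => (ker _).1 (h4 1 K.one_mem _ (mM _) one_ne_zero
      fun y hy => by
      obtain ⟨z, -, rfl⟩ := mem_image.1 (s hy)
      obtain ⟨x, hx, rfl⟩ := mem_image.1 (g.ge (mem_filter.2 ⟨mem_univ z, hy⟩))
      rw [one_mul, ← map_add, add_right_comm, ← mul_add]
      exact g1 _ (by simpa [(ker h).2 hh] using hx)).1
    have := h4 a aK (f b) (mM b) a.ne_zero fun y hy => by
      obtain ⟨z, -, rfl⟩ := mem_image.1 (s hy)
      rw [← sm _ aK, ← map_add]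
      exact g1 z hy
    exact ⟨this.2, (ker b).1 this.1⟩
  · simp only [mem_filter, mem_univ, true_and, map_add, (ker b).2 g.2, add_zero,
      sm _ (mK _ g.1)] at hx ⊢
    exact h1 _ hx _ (by rw [mul_pow, g.1, one_mul])

end Pool.Agent.Results.MP_6575fe_co.Exact
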